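import Mathlib

open Set Filter Topology

namespace Pool.Agent.R219.AM

set_option linter.unusedSectionVars false
set_option linter.unusedVariables false

/-- The space of digit sequences (the digit of index `r` is the digit number `r + 1` of the text). -/
abbrev Gam (d : ℕ → ℕ) := ∀ r, Fin (d r)

variable {d : ℕ → ℕ}

/-- The digit of index `r` is the largest one. -/
def IsTop (x : Gam d) (r : ℕ) : Prop := (x r : ℕ) + 1 = d r

/-- The first `s` digits are the largest ones. -/
def Full (x : Gam d) (s : ℕ) : Prop := ∀ i < s, IsTop x i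

open Classical in
/-- Addition of one with carries. -/
noncomputable def V (hd : ∀ r, 2 ≤ d r) (x : Gam d) : Gam d := fun r =>
  if Full x r then ⟨((x r : ℕ) + 1) % d r, Nat.mod_lt _ (by have := hd r; omega)⟩ else x r

/-- Replacement of the first `s` digits by zero. -/
def T (hd : ∀ r, 2 ≤ d r) (s : ℕ) (x : Gam d) : Gam d := fun r =>
  if r < s then ⟨0, by have := hd r; omega⟩ else x r

open Classical in
/-- The stochastic adding machine. The index `Nat.find h` is `s_x - 1`. -/
noncomputable def adding (hd : ∀ r, 2 ≤ d r) (p : ℕ → ℝ) (g : Gam d → ℂ) (x : Gam d) : ℂ :=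
  (1 - p 0 : ℝ) * g x +
  if h : ∃ m, ¬ IsTop x m then
    (∏ r ∈ Finset.range (Nat.find h + 1), p r : ℝ) * g (V hd x) +
      ∑ s ∈ Finset.Icc 1 (Nat.find h),
        ((∏ r ∈ Finset.range s, p r) * (1 - p s) : ℝ) * g (T hd s x)
  else
    (⨅ s, ∏ r ∈ Finset.range s, p r : ℝ) * g (V hd x) +
      ∑' s : ℕ, ((∏ r ∈ Finset.range (s + 1), p r) * (1 - p (s + 1)) : ℝ) * g (T hd (s + 1) x)

/-- The residual spectrum of a bounded operator. -/
def residualSpectrum {X : Type*} [NormedAddCommGroup X] [NormedSpace ℂ X] (S : X →L[ℂ] X) :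
    Set ℂ :=
  {z | Function.Injective (S - z • ContinuousLinearMap.id ℂ X) ∧
    ¬ Dense (Set.range (S - z • ContinuousLinearMap.id ℂ X))}

section weights

variable (p : ℕ → ℝ)

/-- Partial products. -/
noncomputable def P (s : ℕ) : ℝ := ∏ r ∈ Finset.range s, p r

open Classical in
/-- The weight of `V x`. -/
noncomputable def Q (x : Gam d) : ℝ :=
  if h : ∃ m, ¬ IsTop x m then P p (Nat.find h + 1) else ⨅ s, P p s

open Classical in
/-- The weight of `T (s+1) x`. -/
noncomputable def c (x : Gam d) (s : ℕ) : ℝ :=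
  if Full x (s + 1) then P p (s + 1) * (1 - p (s + 1)) else 0

variable {p}

lemma P_pos (hp : ∀ r, 0 < p r) (s : ℕ) : 0 < P p s := Finset.prod_pos fun r _ => hp r

lemma P_succ (s : ℕ) : P p (s + 1) = P p s * p s := Finset.prod_range_succ _ _

lemma P_anti (hp : ∀ r, 0 < p r) (hp1 : ∀ r, p r ≤ 1) : Antitone (P p) := by
  apply antitone_nat_of_succ_le
  intro s
  rw [P_succ]
  have := P_pos hp s
  have := hp1 s
  nlinarith

lemma P_bdd (hp : ∀ r, 0 < p r) : BddBelow (Set.range (P p)) :=
  ⟨0, by rintro _ ⟨s, rfl⟩; exact (P_pos hp s).le⟩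

lemma Q_nonneg (hp : ∀ r, 0 < p r) (x : Gam d) : 0 ≤ Q p x := by
  unfold Q
  split_ifs with h
  · exact (P_pos hp _).le
  · exact le_ciInf fun s => (P_pos hp s).le

lemma c_nonneg (hp : ∀ r, 0 < p r) (hp1 : ∀ r, p r ≤ 1) (x : Gam d) (s : ℕ) : 0 ≤ c p x s := by
  unfold c
  split_ifs
  · exact mul_nonneg (P_pos hp _).le (by linarith [hp1 (s + 1)])
  · exact le_rfl

lemma full_iff {x : Gam d} (h : ∃ m, ¬ IsTop x m) [DecidablePred fun m => ¬ IsTop x m] (s : ℕ) :
    Full x s ↔ s ≤ Nat.find h := by
  constructor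
  · intro hf
    by_contra hc
    push Not at hc
    exact Nat.find_spec h (hf _ hc)
  · intro hs i hi
    by_contra hc
    exact absurd (Nat.find_min' h hc) (by omega)

/-- The weights add up to one. -/
lemma hasSum_c (hp : ∀ r, 0 < p r) (hp1 : ∀ r, p r ≤ 1) (x : Gam d) :
    HasSum (c p x) (p 0 - Q p x) := by
  classical
  by_cases h : ∃ m, ¬ IsTop x m
  · have hQ : Q p x = P p (Nat.find h + 1) := by unfold Q; rw [dif_pos h]
    have h1 : ∀ s ∉ Finset.range (Nat.find h), c p x s = 0 := by
      intro s hs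
      unfold c
      rw [if_neg]
      rw [full_iff h, Finset.mem_range] at *
      omega
    have h2 : HasSum (c p x) (∑ s ∈ Finset.range (Nat.find h), c p x s) :=
      hasSum_sum_of_ne_finset_zero h1
    convert h2 using 1
    rw [hQ]
    have h3 : ∀ s ∈ Finset.range (Nat.find h), c p x s = P p (s + 1) - P p (s + 1 + 1) := by
      intro s hs
      unfold c
      rw [if_pos, P_succ (s + 1)]
      · ring
      · rw [full_iff h]
        rw [Finset.mem_range] at hs
        omega
    rw [Finset.sum_congr rfl h3, Finset.sum_range_sub' (fun s => P p (s + 1))]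
    simp [P]
  · have hQ : Q p x = ⨅ s, P p s := by unfold Q; rw [dif_neg h]
    push Not at h
    have h3 : ∀ s, c p x s = P p (s + 1) - P p (s + 1 + 1) := by
      intro s
      unfold c
      have hf : Full x (s + 1) := fun i _ => h i
      rw [if_pos hf, P_succ (s + 1)]
      ring
    rw [hasSum_iff_tendsto_nat_of_nonneg (c_nonneg hp hp1 x)]
    have h4 : (fun n => ∑ i ∈ Finset.range n, c p x i) = fun n => P p 1 - P p (n + 1) := by
      funext n
      rw [Finset.sum_congr rfl fun s _ => h3 s, Finset.sum_range_sub' (fun s => P p (s + 1))]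
    rw [h4, hQ]
    have h5 := tendsto_atTop_ciInf (P_anti hp hp1) (P_bdd hp)
    have h6 := (h5.comp (tendsto_add_atTop_nat 1)).const_sub (P p 1)
    have h7 : P p 1 = p 0 := by simp [P]
    rw [h7] at h6 ⊢
    exact h6

variable (hd : ∀ r, 2 ≤ d r)

/-- Uniform form of the operator. -/
lemma adding_eq (hp : ∀ r, 0 < p r) (hp1 : ∀ r, p r ≤ 1) (g : Gam d → ℂ) (x : Gam d) :
    adding hd p g x = (1 - p 0 : ℝ) * g x + (Q p x : ℝ) * g (V hd x) +
      ∑' s : ℕ, (c p x s : ℝ) * g (T hd (s + 1) x) := by
  classical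
  unfold adding
  rw [add_assoc]
  congr 1
  by_cases h : ∃ m, ¬ IsTop x m
  · rw [dif_pos h]
    have hQ : Q p x = P p (Nat.find h + 1) := by unfold Q; rw [dif_pos h]
    rw [hQ]
    congr 1
    have h1 : ∀ s ∉ Finset.range (Nat.find h), (c p x s : ℂ) * g (T hd (s + 1) x) = 0 := by
      intro s hs
      unfold c
      rw [if_neg]
      · simp
      rw [full_iff h, Finset.mem_range] at *
      omega
    rw [tsum_eq_sum h1]
    have h2 : Finset.Icc 1 (Nat.find h) = Finset.image (fun s => s + 1) (Finset.range (Nat.find h)) := by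
      ext s
      simp only [Finset.mem_Icc, Finset.mem_image, Finset.mem_range]
      constructor
      · rintro ⟨h1, h2⟩
        exact ⟨s - 1, by omega, by omega⟩
      · rintro ⟨t, ht, rfl⟩
        omega
    rw [h2, Finset.sum_image (by intro a _ b _ hab; simpa using hab)]
    refine Finset.sum_congr rfl fun s hs => ?_
    unfold c
    rw [if_pos]
    · rfl
    · rw [full_iff h]
      rw [Finset.mem_range] at hs
      omega
  · rw [dif_neg h]
    have hQ : Q p x = ⨅ s, P p s := by unfold Q; rw [dif_neg h]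
    rw [hQ]
    push Not at h
    congr 1
    refine tsum_congr fun s => ?_
    unfold c
    have hf : Full x (s + 1) := fun i _ => h i
    rw [if_pos hf]
    rfl

end weights

end Pool.Agent.R219.AM
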