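import Pool.Agent.R219.AM.Defs

open Set Filter Topology

namespace Pool.Agent.R219.AM

set_option linter.unusedSectionVars false
set_option linter.unusedVariables false

variable {d : ℕ → ℕ} {p : ℕ → ℝ} (hd : ∀ r, 2 ≤ d r)

lemma summable_cg (hp : ∀ r, 0 < p r) (hp1 : ∀ r, p r ≤ 1) {g : Gam d → ℂ} {M : ℝ}
    (hM : ∀ x, ‖g x‖ ≤ M) (x : Gam d) :
    Summable (fun s : ℕ => (c p x s : ℂ) * g (T hd (s + 1) x)) := by
  have h1 : Summable (fun s => c p x s * M) := (hasSum_c hp hp1 x).summable.mul_right M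
  refine Summable.of_norm_bounded h1 fun s => ?_
  rw [norm_mul, Complex.norm_real, Real.norm_eq_abs, abs_of_nonneg (c_nonneg hp hp1 x s)]
  exact mul_le_mul_of_nonneg_left (hM _) (c_nonneg hp hp1 x s)

lemma adding_shift (hp : ∀ r, 0 < p r) (hp1 : ∀ r, p r ≤ 1) {g : Gam d → ℂ} {M : ℝ}
    (hM : ∀ x, ‖g x‖ ≤ M) (G : ℂ) (x : Gam d) :
    adding hd p g x = G + ((1 - p 0 : ℝ) * (g x - G) + (Q p x : ℝ) * (g (V hd x) - G) +
      ∑' s : ℕ, (c p x s : ℝ) * (g (T hd (s + 1) x) - G)) := by
  rw [adding_eq hd hp hp1]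
  have h1 := hasSum_c hp hp1 x
  have h2 : HasSum (fun s => (c p x s : ℂ)) ((p 0 - Q p x : ℝ) : ℂ) := Complex.hasSum_ofReal.2 h1
  have h3 : ∑' s : ℕ, (c p x s : ℂ) * (g (T hd (s + 1) x) - G) =
      ∑' s : ℕ, (c p x s : ℂ) * g (T hd (s + 1) x) - ((p 0 - Q p x : ℝ) : ℂ) * G := by
    rw [← (h2.mul_right G).tsum_eq, ← (summable_cg hd hp hp1 hM x).tsum_sub (h2.mul_right G).summable]
    exact tsum_congr fun s => by ring
  rw [h3]
  push_cast
  ring

lemma adding_norm_le (hp : ∀ r, 0 < p r) (hp1 : ∀ r, p r ≤ 1) {g : Gam d → ℂ} {M : ℝ}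
    (hM : ∀ x, ‖g x‖ ≤ M) (x : Gam d) : ‖adding hd p g x‖ ≤ M := by
  rw [adding_eq hd hp hp1]
  have h1 := hasSum_c hp hp1 x
  have h2 : ‖∑' s : ℕ, (c p x s : ℂ) * g (T hd (s + 1) x)‖ ≤ (p 0 - Q p x) * M := by
    refine tsum_of_norm_bounded (h1.mul_right M) fun s => ?_
    rw [norm_mul, Complex.norm_real, Real.norm_eq_abs, abs_of_nonneg (c_nonneg hp hp1 x s)]
    exact mul_le_mul_of_nonneg_left (hM _) (c_nonneg hp hp1 x s)
  have h3 : ‖((1 - p 0 : ℝ) : ℂ) * g x‖ ≤ (1 - p 0) * M := by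
    rw [norm_mul, Complex.norm_real, Real.norm_eq_abs, abs_of_nonneg (by linarith [hp1 0])]
    exact mul_le_mul_of_nonneg_left (hM _) (by linarith [hp1 0])
  have h4 : ‖((Q p x : ℝ) : ℂ) * g (V hd x)‖ ≤ Q p x * M := by
    rw [norm_mul, Complex.norm_real, Real.norm_eq_abs, abs_of_nonneg (Q_nonneg hp x)]
    exact mul_le_mul_of_nonneg_left (hM _) (Q_nonneg hp x)
  calc _ ≤ (1 - p 0) * M + Q p x * M + (p 0 - Q p x) * M :=
        (norm_add_le _ _).trans (add_le_add ((norm_add_le _ _).trans (add_le_add h3 h4)) h2)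
    _ = M := by ring

/-- Functions depending on the first `r` digits only. -/
def Lev (r : ℕ) (g : Gam d → ℂ) : Prop := ∀ x y : Gam d, (∀ i < r, x i = y i) → g x = g y

lemma isTop_congr {x y : Gam d} {i : ℕ} (h : x i = y i) : IsTop x i ↔ IsTop y i := by
  unfold IsTop; rw [h]

lemma full_congr {x y : Gam d} {r s : ℕ} (h : ∀ i < r, x i = y i) (hs : s ≤ r) :
    Full x s ↔ Full y s := by
  unfold Full
  constructor
  · intro hf i hi; exact (isTop_congr (h i (by omega))).1 (hf i hi)
  · intro hf i hi; exact (isTop_congr (h i (by omega))).2 (hf i hi)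

lemma full_mono {x : Gam d} {r s : ℕ} (h : Full x s) (hr : r ≤ s) : Full x r :=
  fun i hi => h i (by omega)

lemma V_top {x : Gam d} {r : ℕ} (h : Full x r) (i : ℕ) (hi : i < r) :
    ((V hd x) i : ℕ) = 0 := by
  unfold V
  rw [if_pos (full_mono h hi.le)]
  have : (x i : ℕ) + 1 = d i := h i hi
  simp [this]

lemma V_congr {x y : Gam d} {r : ℕ} (h : ∀ i < r, x i = y i) (i : ℕ) (hi : i < r) :
    (V hd x) i = (V hd y) i := by
  classical
  unfold V
  by_cases hf : Full x i
  · rw [if_pos hf, if_pos ((full_congr h hi.le).1 hf)]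
    apply Fin.ext
    show ((x i : ℕ) + 1) % d i = ((y i : ℕ) + 1) % d i
    rw [h i hi]
  · rw [if_neg hf, if_neg (fun h' => hf ((full_congr h hi.le).2 h')), h i hi]

lemma T_congr {x y : Gam d} {r : ℕ} (h : ∀ i < r, x i = y i) (s i : ℕ) (hi : i < r) :
    (T hd s x) i = (T hd s y) i := by
  unfold T
  split_ifs
  · rfl
  · exact h i hi

/-- Level `r` functions are preserved. -/
lemma lev_adding (hp : ∀ r, 0 < p r) (hp1 : ∀ r, p r ≤ 1) {g : Gam d → ℂ} {M : ℝ}
    (hM : ∀ x, ‖g x‖ ≤ M) {r : ℕ} (hg : Lev r g) : Lev r (adding hd p g) := by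
  classical
  intro x y hxy
  let z : Gam d := fun r => ⟨0, by have := hd r; omega⟩
  rw [adding_shift hd hp hp1 hM (g z) x, adding_shift hd hp hp1 hM (g z) y, hg x y hxy]
  by_cases hf : Full x r
  · have hfy : Full y r := (full_congr hxy le_rfl).1 hf
    have hVx : g (V hd x) = g z := by
      apply hg; intro i hi; apply Fin.ext; rw [V_top hd hf i hi]
    have hVy : g (V hd y) = g z := by
      apply hg; intro i hi; apply Fin.ext; rw [V_top hd hfy i hi]
    rw [hVx, hVy, sub_self, mul_zero, mul_zero]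
    congr 2
    refine tsum_congr fun s => ?_
    by_cases hs : s + 1 < r
    · have h1 : c p x s = c p y s := by
        unfold c
        rw [if_pos (full_mono hf hs.le), if_pos (full_mono hfy hs.le)]
      rw [h1, hg (T hd (s + 1) x) (T hd (s + 1) y) fun i hi => T_congr hd hxy _ i hi]
    · have h1 : g (T hd (s + 1) x) = g z := by
        apply hg; intro i hi; unfold T; rw [if_pos (by omega)]
      have h2 : g (T hd (s + 1) y) = g z := by
        apply hg; intro i hi; unfold T; rw [if_pos (by omega)]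
      rw [h1, h2, sub_self, mul_zero, mul_zero]
  · have hfy : ¬ Full y r := fun h => hf ((full_congr hxy le_rfl).2 h)
    have hV : g (V hd x) = g (V hd y) := hg _ _ fun i hi => V_congr hd hxy i hi
    have hx : ∃ m, ¬ IsTop x m := by
      unfold Full at hf; push Not at hf
      obtain ⟨m, _, hm⟩ := hf; exact ⟨m, hm⟩
    have hy : ∃ m, ¬ IsTop y m := by
      unfold Full at hfy; push Not at hfy
      obtain ⟨m, _, hm⟩ := hfy; exact ⟨m, hm⟩
    have hxr : Nat.find hx < r := by
      by_contra hc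
      exact hf ((full_iff hx r).2 (by omega))
    have hyr : Nat.find hy < r := by
      by_contra hc
      exact hfy ((full_iff hy r).2 (by omega))
    have hfind : Nat.find hx = Nat.find hy := by
      apply le_antisymm
      · apply Nat.find_min'
        rw [isTop_congr (hxy _ hyr)]
        exact Nat.find_spec hy
      · apply Nat.find_min'
        rw [← isTop_congr (hxy _ hxr)]
        exact Nat.find_spec hx
    have hQ : Q p x = Q p y := by
      unfold Q
      rw [dif_pos hx, dif_pos hy, hfind]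
    have hc : ∀ s, c p x s = c p y s := by
      intro s
      unfold c
      have : Full x (s + 1) ↔ Full y (s + 1) := by
        rw [full_iff hx, full_iff hy, hfind]
      simp only [this]
    rw [hV, hQ]
    congr 2
    refine tsum_congr fun s => ?_
    rw [hc s, hg (T hd (s + 1) x) (T hd (s + 1) y) fun i hi => T_congr hd hxy _ i hi]

/-! ### Topology -/

lemma lev_continuous {r : ℕ} {g : Gam d → ℂ} (hg : Lev r g) : Continuous g := by
  rw [continuous_iff_continuousAt]
  intro x
  apply ContinuousAt.congr (f := fun _ => g x) continuousAt_const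
  have hopen : IsOpen {y : Gam d | ∀ i < r, y i = x i} := by
    have : {y : Gam d | ∀ i < r, y i = x i} = ⋂ i ∈ Finset.range r, (fun y : Gam d => y i) ⁻¹' {x i} := by
      ext y; simp
    rw [this]
    exact isOpen_biInter_finset fun i _ => (isOpen_discrete _).preimage (continuous_apply i)
  filter_upwards [hopen.mem_nhds (fun i _ => rfl)] with y hy
  exact (hg y x hy).symm

/-- Truncation to level `r`. -/
def trunc (hd : ∀ r, 2 ≤ d r) (r : ℕ) (x : Gam d) : Gam d := fun i =>
  if i < r then x i else ⟨0, by have := hd i; omega⟩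

lemma lev_trunc (r : ℕ) (g : Gam d → ℂ) : Lev r (fun x => g (trunc hd r x)) := by
  intro x y h
  simp only
  congr 1
  funext i
  unfold trunc
  split_ifs with hi
  · exact h i hi
  · rfl

lemma exists_level (g : C(Gam d, ℂ)) {ε : ℝ} (hε : 0 < ε) :
    ∃ r, ∀ x, ‖g x - g (trunc hd r x)‖ ≤ ε := by
  classical
  -- a basic neighbourhood at every point
  have h1 : ∀ x : Gam d, ∃ r : ℕ, ∀ y : Gam d, (∀ i < r, y i = x i) → ‖g y - g x‖ < ε / 2 := by
    intro x
    have hopen : IsOpen (g ⁻¹' Metric.ball (g x) (ε / 2)) := Metric.isOpen_ball.preimage g.continuous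
    obtain ⟨I, u, hu, hsub⟩ := isOpen_pi_iff.1 hopen x (by simp [hε])
    refine ⟨I.sup id + 1, fun y hy => ?_⟩
    have : y ∈ g ⁻¹' Metric.ball (g x) (ε / 2) := by
      apply hsub
      intro i hi
      rw [hy i (Nat.lt_succ_of_le (Finset.le_sup (f := id) hi))]
      exact (hu i hi).2
    rwa [mem_preimage, Metric.mem_ball, dist_eq_norm] at this
  choose R hR using h1
  obtain ⟨t, ht⟩ := isCompact_univ.elim_nhds_subcover
    (fun x : Gam d => {y : Gam d | ∀ i < R x, y i = x i}) (fun x _ => by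
      have : IsOpen {y : Gam d | ∀ i < R x, y i = x i} := by
        have : {y : Gam d | ∀ i < R x, y i = x i} =
            ⋂ i ∈ Finset.range (R x), (fun y : Gam d => y i) ⁻¹' {x i} := by
          ext y; simp
        rw [this]
        exact isOpen_biInter_finset fun i _ => (isOpen_discrete _).preimage (continuous_apply i)
      exact this.mem_nhds (fun i _ => rfl))
  refine ⟨t.sup R, fun x => ?_⟩
  obtain ⟨z, hz, hxz⟩ := mem_iUnion₂.1 (ht.2 (mem_univ x))
  have h2 : R z ≤ t.sup R := Finset.le_sup hz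
  have h3 := hR z x hxz
  have h4 := hR z (trunc hd (t.sup R) x) (by
    intro i hi
    unfold trunc
    rw [if_pos (by omega)]
    exact hxz i hi)
  calc ‖g x - g (trunc hd (t.sup R) x)‖ = ‖(g x - g z) - (g (trunc hd (t.sup R) x) - g z)‖ := by
        congr 1; ring
    _ ≤ ‖g x - g z‖ + ‖g (trunc hd (t.sup R) x) - g z‖ := norm_sub_le _ _
    _ ≤ ε := by linarith

lemma adding_sub (hp : ∀ r, 0 < p r) (hp1 : ∀ r, p r ≤ 1) {g h : Gam d → ℂ} {M N : ℝ}
    (hM : ∀ x, ‖g x‖ ≤ M) (hN : ∀ x, ‖h x‖ ≤ N) (a b : ℂ) (x : Gam d) :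
    adding hd p (fun x => a * g x + b * h x) x = a * adding hd p g x + b * adding hd p h x := by
  rw [adding_eq hd hp hp1, adding_eq hd hp hp1, adding_eq hd hp hp1]
  have h1 := (summable_cg hd hp hp1 hM x).mul_left a
  have h2 := (summable_cg hd hp hp1 hN x).mul_left b
  have h3 : ∑' s : ℕ, (c p x s : ℂ) * (a * g (T hd (s + 1) x) + b * h (T hd (s + 1) x)) =
      a * ∑' s : ℕ, (c p x s : ℂ) * g (T hd (s + 1) x) +
      b * ∑' s : ℕ, (c p x s : ℂ) * h (T hd (s + 1) x) := by
    rw [← tsum_mul_left, ← tsum_mul_left, ← h1.tsum_add h2]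
    exact tsum_congr fun s => by ring
  rw [h3]
  ring

lemma adding_continuous (hp : ∀ r, 0 < p r) (hp1 : ∀ r, p r ≤ 1) (g : C(Gam d, ℂ)) :
    Continuous (adding hd p g) := by
  apply continuous_of_uniform_approx_of_continuous
  intro u hu
  obtain ⟨ε, hε, hεu⟩ := Metric.mem_uniformity_dist.1 hu
  obtain ⟨r, hr⟩ := exists_level hd g (half_pos hε)
  have hM : ∀ x, ‖g x‖ ≤ ‖g‖ := g.norm_coe_le_norm
  have hM' : ∀ x, ‖g (trunc hd r x)‖ ≤ ‖g‖ := fun x => g.norm_coe_le_norm _
  refine ⟨adding hd p (fun x => g (trunc hd r x)),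
    lev_continuous (lev_adding hd hp hp1 hM' (lev_trunc hd r g)), fun x => hεu ?_⟩
  rw [dist_eq_norm]
  have h1 := adding_sub hd hp hp1 hM hM' 1 (-1) x
  rw [one_mul, neg_one_mul, ← sub_eq_add_neg] at h1
  rw [← h1]
  refine lt_of_le_of_lt (adding_norm_le hd hp hp1 (M := ε / 2) (fun y => ?_) x) (by linarith)
  rw [one_mul, neg_one_mul, ← sub_eq_add_neg]
  exact hr y

/-- The operator on continuous functions. -/
noncomputable def Sop (hp : ∀ r, 0 < p r) (hp1 : ∀ r, p r ≤ 1) : C(Gam d, ℂ) →L[ℂ] C(Gam d, ℂ) :=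
  LinearMap.mkContinuous
    { toFun := fun g => ⟨adding hd p g, adding_continuous hd hp hp1 g⟩
      map_add' := by
        intro g h
        ext x
        have := adding_sub hd hp hp1 (g := g) (h := h) g.norm_coe_le_norm h.norm_coe_le_norm 1 1 x
        simp only [one_mul] at this
        exact this
      map_smul' := by
        intro a g
        ext x
        have := adding_sub hd hp hp1 (g := g) (h := g) g.norm_coe_le_norm g.norm_coe_le_norm a 0 x
        simp only [zero_mul, add_zero] at this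
        exact this } 1 (by
    intro g
    rw [one_mul]
    apply (ContinuousMap.norm_le _ (norm_nonneg g)).2
    intro x
    exact adding_norm_le hd hp hp1 g.norm_coe_le_norm x)

lemma Sop_apply (hp : ∀ r, 0 < p r) (hp1 : ∀ r, p r ≤ 1) (g : C(Gam d, ℂ)) (x : Gam d) :
    Sop hd hp hp1 g x = adding hd p g x := rfl

/-- The subspace of level `r` functions. -/
def Cr (d : ℕ → ℕ) (r : ℕ) : Submodule ℂ C(Gam d, ℂ) where
  carrier := {g | Lev r g}
  add_mem' := by
    intro g h hg hh x y hxy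
    show g x + h x = g y + h y
    rw [hg x y hxy, hh x y hxy]
  zero_mem' := fun x y _ => rfl
  smul_mem' := by
    intro a g hg x y hxy
    show a • g x = a • g y
    rw [hg x y hxy]

lemma finite_Cr (r : ℕ) : FiniteDimensional ℂ (Cr d r) := by
  classical
  by_cases hne : ∀ i, 0 < d i
  · let ext' : (∀ i : Fin r, Fin (d i)) → Gam d := fun u i =>
      if h : i < r then u ⟨i, h⟩ else ⟨0, hne i⟩
    let Φ : Cr d r →ₗ[ℂ] ((∀ i : Fin r, Fin (d i)) → ℂ) :=
      { toFun := fun g u => (g : C(Gam d, ℂ)) (ext' u)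
        map_add' := fun g h => rfl
        map_smul' := fun a g => rfl }
    refine FiniteDimensional.of_injective Φ ?_
    intro g h hgh
    apply Subtype.ext
    ext x
    have h1 := congrFun hgh (fun i => x i)
    have h2 : ∀ g : Cr d r, (g : C(Gam d, ℂ)) (ext' fun i => x i) = (g : C(Gam d, ℂ)) x := by
      intro g
      apply g.2
      intro i hi
      simp [ext', hi]
    have h3 : (g : C(Gam d, ℂ)) (ext' fun i => x i) = (h : C(Gam d, ℂ)) (ext' fun i => x i) := h1
    rw [h2, h2] at h3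
    exact h3
  · have : IsEmpty (Gam d) := by
      push Not at hne
      obtain ⟨i, hi⟩ := hne
      refine ⟨fun x => ?_⟩
      have := (x i).isLt
      omega
    have : Subsingleton C(Gam d, ℂ) := ⟨fun f g => by ext x; exact (IsEmpty.false x).elim⟩
    infer_instance

theorem main (hp : ∀ r, 0 < p r) (hp1 : ∀ r, p r ≤ 1) :
    residualSpectrum (X := C(Gam d, ℂ)) (Sop (d := d) (p := p) hd hp hp1) = ∅ := by
  rw [eq_empty_iff_forall_notMem]
  rintro z ⟨hinj, hdense⟩
  apply hdense
  set A : C(Gam d, ℂ) →L[ℂ] C(Gam d, ℂ) := Sop hd hp hp1 - z • ContinuousLinearMap.id ℂ C(Gam d, ℂ) with hA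
  -- level sets are in the range
  have hmap : ∀ r, ∀ g ∈ Cr d r, A g ∈ Cr d r := by
    intro r g hg x y hxy
    have h1 := lev_adding hd hp hp1 (g := g) g.norm_coe_le_norm hg x y hxy
    show Sop hd hp hp1 g x - z • g x = Sop hd hp hp1 g y - z • g y
    rw [Sop_apply, Sop_apply, h1, hg x y hxy]
  have hrange : ∀ r, ∀ g ∈ Cr d r, g ∈ range A := by
    intro r g hg
    have := finite_Cr (d := d) r
    let B : Cr d r →ₗ[ℂ] Cr d r := (A : C(Gam d, ℂ) →ₗ[ℂ] C(Gam d, ℂ)).restrict (hmap r)
    have hB : Function.Injective B := by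
      intro u v huv
      apply Subtype.ext
      apply hinj
      exact congrArg Subtype.val huv
    obtain ⟨u, hu⟩ := (LinearMap.injective_iff_surjective.1 hB) ⟨g, hg⟩
    exact ⟨u, congrArg Subtype.val hu⟩
  rw [Metric.dense_iff]
  intro g ε hε
  obtain ⟨r, hr⟩ := exists_level hd g (half_pos hε)
  let g' : C(Gam d, ℂ) := ⟨fun x => g (trunc hd r x), lev_continuous (lev_trunc hd r g)⟩
  refine ⟨g', ?_, hrange r g' (lev_trunc hd r g)⟩
  rw [Metric.mem_ball, dist_comm, dist_eq_norm]
  refine lt_of_le_of_lt ((ContinuousMap.norm_le _ (by positivity)).2 fun x => hr x) (by linarith)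

end Pool.Agent.R219.AM
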